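import Pool.Agent.Helper17.IA.StV

/-!
# Module FLL of project IA: the set of all possible rests
-/

set_option autoImplicit false

namespace Pool.Agent.Helper84.IA

open Finset Pool.Agent.Helper93.IA Pool.Agent.Helper17.IA

private lemma card_ps (n M : ℕ) (U W : Finset (Fin n)) (hU : U.card ≤ M) (hW : W.card ≤ M) :
    (U ×ˢ W).powerset.card ≤ 2 ^ (M * M) := by
  rw [card_powerset, card_product]
  exact Nat.pow_le_pow_right (by norm_num) (Nat.mul_le_mul hU hW)

theorem hFLL : StFLL := by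
  classical
  intro n M V hV
  refine ⟨((V 0 ×ˢ V 1).powerset ×ˢ ((V 1 ×ˢ V 2).powerset ×ˢ (V 2 ×ˢ V 0).powerset)).filter
    (fun L => Bal L.1 L.2.1 L.2.2), ?_, ?_⟩
  · refine (card_filter_le _ _).trans ?_
    rw [card_product, card_product]
    have h1 := card_ps n M (V 0) (V 1) (hV 0) (hV 1)
    have h2 := card_ps n M (V 1) (V 2) (hV 1) (hV 2)
    have h3 := card_ps n M (V 2) (V 0) (hV 2) (hV 0)
    calc _ ≤ 2 ^ (M * M) * (2 ^ (M * M) * 2 ^ (M * M)) :=
          Nat.mul_le_mul h1 (Nat.mul_le_mul h2 h3)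
      _ = 2 ^ (3 * (M * M)) := by
          rw [← pow_add, ← pow_add]
          congr 1
          ring
  · intro LA LB LC
    rw [mem_filter, mem_product, mem_product, mem_powerset, mem_powerset, mem_powerset]
    simp only [subset_iff, mem_product]
    constructor
    · rintro ⟨⟨h1, h2, h3⟩, h4⟩
      exact ⟨h4, fun x hx => h1 hx, fun x hx => h2 hx, fun x hx => h3 hx⟩
    · rintro ⟨h4, h1, h2, h3⟩
      exact ⟨⟨fun x hx => h1 x hx, fun x hx => h2 x hx, fun x hx => h3 x hx⟩, h4⟩

end Pool.Agent.Helper84.IA
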